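import Pool.Agent.helper50.MA.Spec1

/-!
# ma:A8, maximum principle against a smooth barrier
-/

set_option autoImplicit false

open MeasureTheory Set Filter Topology Complex
open scoped ContDiff Real

namespace MAP

noncomputable section

lemma A8_nsq_cont : Continuous nsq := by
  unfold nsq
  fun_prop

lemma A8_norm_le (x : C2) (r : ℝ) (hr : 0 ≤ r) (h : nsq x ≤ r ^ 2) : ‖x‖ ≤ r := by
  rw [Prod.norm_def]
  unfold nsq at h
  refine max_le ?_ ?_
  · exact abs_le_of_sq_le_sq' (by nlinarith [sq_nonneg ‖x.2‖]) hr |>.2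
  · exact abs_le_of_sq_le_sq' (by nlinarith [sq_nonneg ‖x.1‖]) hr |>.2

lemma A8_cbal_compact (c : C2) (r : ℝ) (hr : 0 ≤ r) : IsCompact (cbal c r) := by
  refine Metric.isCompact_of_isClosed_isBounded ?_ ?_
  · refine isClosed_le ?_ continuous_const
    exact A8_nsq_cont.comp (continuous_id.sub continuous_const)
  · refine (Metric.isBounded_closedBall (x := c) (r := r)).subset ?_
    intro x hx
    rw [Metric.mem_closedBall, dist_eq_norm]
    exact A8_norm_le _ _ hr hx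

lemma A8_bal_open (c : C2) (r : ℝ) : IsOpen (bal c r) := by
  refine isOpen_lt ?_ continuous_const
  exact A8_nsq_cont.comp (continuous_id.sub continuous_const)

lemma A8_circle_cont (U : Set C2) (u : C2 → ℝ) (hu : ContinuousOn u U) (x ξ : C2)
    (h : disc x ξ ⊆ U) : Continuous (fun θ : ℝ => u (x + cexp (θ * I) • ξ)) := by
  refine hu.comp_continuous ?_ ?_
  · fun_prop
  · intro θ
    refine h ⟨cexp (θ * I), ?_, rfl⟩
    rw [Complex.norm_exp_ofReal_mul_I]

lemma A8_mean_mono (U : Set C2) (u s : C2 → ℝ) (hu : ContinuousOn u U) (hs : ContinuousOn s U)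
    (x ξ : C2) (h : disc x ξ ⊆ U) (K : ℝ) (hle : ∀ y ∈ U, u y ≤ s y + K) :
    mean u x ξ ≤ mean s x ξ + K := by
  unfold mean
  have h2 : (0 : ℝ) ≤ 2 * π := by positivity
  have hI : ∫ θ in (0 : ℝ)..(2 * π), u (x + cexp (θ * I) • ξ)
      ≤ ∫ θ in (0 : ℝ)..(2 * π), (s (x + cexp (θ * I) • ξ) + K) := by
    refine intervalIntegral.integral_mono_on h2 ?_ ?_ ?_
    · exact (A8_circle_cont U u hu x ξ h).intervalIntegrable _ _
    · exact ((A8_circle_cont U s hs x ξ h).add continuous_const).intervalIntegrable _ _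
    · intro θ _
      refine hle _ (h ⟨cexp (θ * I), ?_, rfl⟩)
      rw [Complex.norm_exp_ofReal_mul_I]
  have hE : ∫ θ in (0 : ℝ)..(2 * π), (s (x + cexp (θ * I) • ξ) + K)
      = (∫ θ in (0 : ℝ)..(2 * π), s (x + cexp (θ * I) • ξ)) + 2 * π * K := by
    rw [intervalIntegral.integral_add]
    · rw [intervalIntegral.integral_const]
      simp
    · exact (A8_circle_cont U s hs x ξ h).intervalIntegrable _ _
    · exact continuous_const.intervalIntegrable _ _
  rw [hE] at hI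
  have hpos : (0 : ℝ) < (2 * π)⁻¹ := by positivity
  calc (2 * π)⁻¹ * ∫ θ in (0 : ℝ)..(2 * π), u (x + cexp (θ * I) • ξ)
      ≤ (2 * π)⁻¹ * ((∫ θ in (0 : ℝ)..(2 * π), s (x + cexp (θ * I) • ξ)) + 2 * π * K) :=
        mul_le_mul_of_nonneg_left hI hpos.le
    _ = _ := by
        have h0 : (2 * π : ℝ) ≠ 0 := by positivity
        rw [mul_add, ← mul_assoc (2 * π)⁻¹ (2 * π) K, inv_mul_cancel₀ h0, one_mul]

lemma A8_disc_small (U : Set C2) (hU : IsOpen U) (x ξ : C2) (hx : x ∈ U) :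
    ∃ δ > 0, ∀ t : ℝ, |t| < δ → disc x (t • ξ) ⊆ U := by
  obtain ⟨ρ, hρ, hsub⟩ := Metric.isOpen_iff.1 hU x hx
  refine ⟨ρ / (‖ξ‖ + 1), by positivity, ?_⟩
  intro t ht y hy
  obtain ⟨ζ, hζ, rfl⟩ := hy
  apply hsub
  rw [Metric.mem_ball, dist_eq_norm, add_sub_cancel_left, norm_smul, norm_smul, Real.norm_eq_abs]
  have h1 : |t| * (‖ξ‖ + 1) < ρ := by
    rwa [lt_div_iff₀ (by positivity)] at ht
  have h2 : ‖ζ‖ * (|t| * ‖ξ‖) ≤ 1 * (|t| * ‖ξ‖) :=
    mul_le_mul_of_nonneg_right hζ (by positivity)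
  nlinarith [abs_nonneg t]

theorem A8 (h3 : A3_stmt) : A8_stmt := by
  intro c r u s hr hu huc hsc hs hlap hsph x hx
  -- the maximum of `u - s`
  obtain ⟨x0, hx0, hmax⟩ := (A8_cbal_compact c r hr.le).exists_isMaxOn ⟨x, hx⟩ (huc.sub hsc)
  by_contra hcon
  push Not at hcon
  have hm : ∀ y ∈ cbal c r, u y - s y ≤ u x0 - s x0 := fun y hy => hmax hy
  have hpos : 0 < u x0 - s x0 := by
    have := hm x hx
    linarith
  have hx0b : x0 ∈ bal c r := by
    rcases lt_or_eq_of_le (show nsq (x0 - c) ≤ r ^ 2 from hx0) with h | h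
    · exact h
    · exfalso
      have := hsph x0 h
      linarith
  obtain ⟨ξ, hξ⟩ := hlap x0 hx0b
  obtain ⟨δ, hδ, hdisc⟩ := A8_disc_small (bal c r) (A8_bal_open c r) x0 ξ hx0b
  have hT := h3.1 (bal c r) s (A8_bal_open c r) hs x0 hx0b ξ
  have hsub : bal c r ⊆ cbal c r := fun y hy => le_of_lt (show nsq (y - c) < r ^ 2 from hy)
  have hev : ∀ᶠ t : ℝ in 𝓝[≠] 0, 0 ≤ (mean s x0 (t • ξ) - s x0) / t ^ 2 := by
    have h0 : ∀ᶠ t : ℝ in 𝓝[≠] 0, |t| < δ := by
      refine mem_nhdsWithin_of_mem_nhds ?_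
      have := Metric.ball_mem_nhds (0 : ℝ) hδ
      filter_upwards [this] with t ht
      simpa [Real.dist_eq] using ht
    filter_upwards [h0] with t ht
    refine div_nonneg ?_ (sq_nonneg t)
    have hd := hdisc t ht
    have h1 := hu.2 x0 (t • ξ) hd
    have h2 := A8_mean_mono (bal c r) u s (huc.mono hsub) (hsc.mono hsub) x0 (t • ξ) hd
      (u x0 - s x0) (fun y hy => by
        have := hm y (hsub hy)
        linarith)
    linarith
  have hge : 0 ≤ lap s x0 ξ / 4 := ge_of_tendsto hT hev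
  linarith

end

end MAP
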